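import Pool.Agent.H437.FB.Final

/-!
# A fibration over the projective line whose fibres satisfy, and whose total space violates,
# the Brauer-Manin principle

`E` is the elliptic curve `y² = x³ + x` over `ℚ` and `ξ` the function `x` on it. Its divisor is
`2 (0,0) - 2 O`, so that `(ξ, d)` is in `Br E` for all `d` in `ℚ*`, and `z² = -ξ` is an étale
double cover of `E`. The variety `X → E × E × ℙ¹` is the fibre product of the two conic bundles

  `u² + ξ(b₀) v² = 3 t (t - s) w²`,   `u² + ξ(b₁) v² = 3 s (t - 9 s) w²`.

It is smooth and projective of dimension five: the first conic bundle is ramified only along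
`t/s = 0, 1`, where it is a pair of disjoint-off-a-section lines over the double cover `z² = -ξ(b₀)`,
the second one along `t/s = 9, ∞`, with the double cover `z² = -ξ(b₁)`. All the fibres of
`X → ℙ¹` are geometrically integral, since `-ξ(b₀)` and `-ξ(b₁)` are not squares on `E × E` over
the algebraic closure (this is in the last part of the theorem).
-/

set_option autoImplicit false

namespace Pool.Agent.Results.MP_bb37eb_nt.BrauerManinFibration

open Pool.Agent.H437.FB

/-- * No adelic point of a fibre `X_P`, where `P = (s : t)` is a rational point of `ℙ¹`, is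
orthogonal to the classes `(ξ(bᵢ), d)`, so that `X_P(𝔸)^Br` and `X_P(ℚ)` are empty (the first
part says that all the sums of local invariants are finite);
* `X(ℚ)` is empty;
* `X` has an adelic point with all its components over the rational point `(O, O)` of `E × E`;
* over an algebraically closed field `F` of characteristic zero, `x₀ᵐ x₁ⁿ` is a square in the
function field `F(x₀, y₀, x₁, y₁)` of `E × E` only if `m` and `n` are even. -/
theorem result :
    (∀ (M : AdelicPoint) (i : Fin 2) (d : ℚ), d ≠ 0 →
      (Function.support fun p : Nat.Primes =>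
        invariant ℚ_[(p : ℕ)] ((M.padic p).b i).xi d).Finite) ∧
    (∀ s t : ℚ, (s ≠ 0 ∨ t ≠ 0) → ∀ M : AdelicPoint, M.Over s t →
      ∃ (i : Fin 2) (d : ℚ), d ≠ 0 ∧ pairing i d M ≠ 0) ∧
    IsEmpty (XPoint ℚ) ∧
    (∃ M : AdelicPoint, (∀ i, M.real.b i = .zero) ∧ ∀ p i, (M.padic p).b i = .zero) ∧
    (∀ (F L : Type) [Field F] [CharZero F] [IsAlgClosed F] [Field L] [Algebra F L]
      (x y : Fin 2 → L), AlgebraicIndependent F x → (∀ i, y i ^ 2 = x i ^ 3 + x i) →
      IntermediateField.adjoin F (Set.range x ∪ Set.range y) = ⊤ →
      ∀ n : Fin 2 → ℕ, IsSquare (x 0 ^ n 0 * x 1 ^ n 1) → Even (n 0) ∧ Even (n 1)) :=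
  ⟨fun M i _ hd => support_finite i hd M,
    fun _ _ hst M hM => fibre_obstructed hst M hM,
    ⟨no_rational_point⟩,
    exists_adelic,
    fun _ _ _ _ _ _ _ _ _ hx hy hL n h => two_curves hx hy hL n h⟩

end Pool.Agent.Results.MP_bb37eb_nt.BrauerManinFibration
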